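import Pool.Agent.Helper11_PGL.StmtT

/-!
# PGL, module CASEONE
-/

universe u

namespace PGL.H15

open PGH

theorem int_all {k A ι : Type*} [Field k] [CommRing A] [Algebra k A] (R0 : Subalgebra k A)
    (x : ι → A) (hx : Algebra.adjoin k (Set.range x) = ⊤) (h : ∀ j, IsIntegral R0 (x j)) (a : A) :
    IsIntegral R0 a := by
  have h1 : (⊤ : Subalgebra k A) ≤ (integralClosure R0 A).restrictScalars k := by
    rw [← hx]
    exact Algebra.adjoin_le (by rintro _ ⟨j, rfl⟩; exact h j)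
  exact h1 Algebra.mem_top

theorem map_lin {k A B ι : Type*} [Field k] [CommRing A] [Algebra k A] [CommRing B] [Algebra k B]
    [Fintype ι] (φ : A →ₐ[k] B) (c : ι → k) (x : ι → A) :
    φ (lin c x) = lin c (fun j => φ (x j)) := by
  unfold lin
  rw [map_sum]
  refine Finset.sum_congr rfl fun j _ => ?_
  rw [map_mul, AlgHom.commutes]

/-- counting by fibres -/
theorem encard_fib {α β : Type*} (f : α → β) (s : Set α) (t : Set β) (B D : ℕ)
    (hst : ∀ a ∈ s, f a ∈ t) (ht : t.encard ≤ B) (hf : ∀ b ∈ t, {a | f a = b}.encard ≤ D) :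
    s.encard ≤ ((D * B : ℕ) : ℕ∞) := by
  classical
  have htf : t.Finite := Set.finite_of_encard_le_coe ht
  have hff : ∀ b ∈ t, {a | f a = b}.Finite := fun b hb => Set.finite_of_encard_le_coe (hf b hb)
  set T := htf.toFinset with hT
  have hTc : T.card ≤ B := by
    have h1 := ht
    rw [htf.encard_eq_coe_toFinset_card] at h1
    exact_mod_cast h1
  let F : β → Finset α := fun b => if hb : b ∈ t then (hff b hb).toFinset else ∅
  have hFc : ∀ b ∈ T, (F b).card ≤ D := by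
    intro b hb
    have hb' : b ∈ t := htf.mem_toFinset.1 hb
    simp only [F, dif_pos hb']
    have h1 := hf b hb'
    rw [(hff b hb').encard_eq_coe_toFinset_card] at h1
    exact_mod_cast h1
  have hsub : s ⊆ ((T.biUnion F : Finset α) : Set α) := by
    intro a ha
    rw [Finset.mem_coe, Finset.mem_biUnion]
    refine ⟨f a, htf.mem_toFinset.2 (hst a ha), ?_⟩
    simp only [F, dif_pos (hst a ha)]
    rw [Set.Finite.mem_toFinset]
    rfl
  refine (Set.encard_le_encard hsub).trans ?_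
  rw [Set.encard_coe_eq_coe_finsetCard]
  have h2 : (T.biUnion F).card ≤ T.card * D :=
    Finset.card_biUnion_le_card_mul _ _ _ hFc
  have h3 : T.card * D ≤ D * B := by rw [mul_comm]; exact Nat.mul_le_mul_left _ hTc
  exact_mod_cast h2.trans h3

theorem caseOne (hGD : GdStmt.{u}) (hH : HomIntStmt.{u}) (hC : CountStmt.{u}) :
    CaseOneStmt.{u} := by
  classical
  intro k _ _ _ ν m D B C A _ _ x α g S hV hF hS hcard
  haveI := hV.dom
  set y : Fin (m + 1) → A := fun l => lin (α l) x with hy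
  haveI hft : Algebra.FiniteType k A :=
    ⟨⟨Finset.univ.image x, by rw [Finset.coe_image, Finset.coe_univ, Set.image_univ]; exact hV.gen⟩⟩
  haveI : IsNoetherianRing A := Algebra.FiniteType.isNoetherianRing k A
  have hintA : ∀ a : A, IsIntegral (Algebra.adjoin k (Set.range y)) a :=
    int_all _ x hV.gen (fun j => hH.isIntegral k A _ y (x j) (hV.int j))
  set G : Fin m → A := fun l => MvPolynomial.aeval y (g l) with hG
  set J : Ideal A := Ideal.span (Set.range G) with hJ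
  have hmin : J.minimalPrimes.Finite := J.finite_minimalPrimes_of_isNoetherianRing
  -- facts on the quotients
  have hprime : ∀ 𝔭 ∈ J.minimalPrimes, 𝔭.IsPrime := fun 𝔭 h => h.1.1
  have hJle : ∀ 𝔭 ∈ J.minimalPrimes, J ≤ 𝔭 := fun 𝔭 h => h.1.2
  have hgen : ∀ 𝔭 : Ideal A, Algebra.adjoin k (Set.range fun j => Ideal.Quotient.mk 𝔭 (x j)) =
      ⊤ := by
    intro 𝔭
    have h1 : (Set.range fun j => Ideal.Quotient.mk 𝔭 (x j)) =
        (Ideal.Quotient.mkₐ k 𝔭) '' (Set.range x) := by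
      rw [← Set.range_comp]; rfl
    rw [h1, ← AlgHom.map_adjoin, hV.gen, Algebra.map_top,
      AlgHom.range_eq_top]
    exact Ideal.Quotient.mkₐ_surjective k 𝔭
  have hint0 : ∀ 𝔭 ∈ J.minimalPrimes, ∀ j,
      HomInt k (fun _ : Unit => Ideal.Quotient.mk 𝔭 (y 0)) (Ideal.Quotient.mk 𝔭 (x j)) := by
    intro 𝔭 h𝔭 j
    have h1 : ∀ l, MvPolynomial.aeval (fun l => Ideal.Quotient.mk 𝔭 (y l)) (g l) = 0 := by
      intro l
      have h2 : MvPolynomial.aeval (fun l => Ideal.Quotient.mk 𝔭 (y l)) (g l) =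
          (Ideal.Quotient.mkₐ k 𝔭) (G l) := by
        rw [hG]
        simp only
        rw [MvPolynomial.comp_aeval_apply]
        rfl
      rw [h2]
      exact Ideal.Quotient.eq_zero_iff_mem.2 (hJle 𝔭 h𝔭 (Ideal.subset_span ⟨l, rfl⟩))
    have h3 := hF.int (A ⧸ 𝔭) (fun l => Ideal.Quotient.mk 𝔭 (y l)) h1
    have h4 := hH.map k A (A ⧸ 𝔭) _ (Ideal.Quotient.mkₐ k 𝔭) y (x j) (hV.int j)
    exact hH.trans k (A ⧸ 𝔭) _ _ _ _ _ h4 h3
  have hintq : ∀ 𝔭 ∈ J.minimalPrimes, ∀ a : A ⧸ 𝔭,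
      IsIntegral (Algebra.adjoin k (Set.range fun _ : Unit => Ideal.Quotient.mk 𝔭 (y 0))) a := by
    intro 𝔭 h𝔭
    exact int_all _ _ (hgen 𝔭) (fun j => hH.isIntegral k (A ⧸ 𝔭) _ _ _ (hint0 𝔭 h𝔭 j))
  have htr : ∀ 𝔭 ∈ J.minimalPrimes, Transcendental k (Ideal.Quotient.mk 𝔭 (y 0)) := by
    intro 𝔭 h𝔭
    by_contra hcon
    rw [Transcendental, not_not] at hcon
    haveI := hprime 𝔭 h𝔭
    haveI : Algebra.IsIntegral k
        (Algebra.adjoin k (Set.range fun _ : Unit => Ideal.Quotient.mk 𝔭 (y 0))) := by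
      refine Algebra.IsIntegral.adjoin ?_
      rintro _ ⟨_, rfl⟩
      exact hcon.isIntegral
    haveI : Algebra.IsIntegral k (A ⧸ 𝔭) := ⟨fun a => isIntegral_trans _ (hintq 𝔭 h𝔭 a)⟩
    have hfield : IsField (A ⧸ 𝔭) := isField_of_isIntegral_of_isField' (Field.toIsField k)
    exact (hGD k (m + 1) A y hft hV.indep hintA).1 m G 𝔭 h𝔭 (Nat.lt_succ_self m)
      (Ideal.Quotient.maximal_of_isField 𝔭 hfield)
  -- counting
  set s : Finset (Ideal A) := hmin.toFinset with hs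
  have hms : ∀ 𝔭, 𝔭 ∈ s ↔ 𝔭 ∈ J.minimalPrimes := fun 𝔭 => hmin.mem_toFinset
  have hr : ∀ 𝔭 : Ideal A, (Set.range fun _ : Fin 1 => Ideal.Quotient.mk 𝔭 (y 0)) =
      Set.range fun _ : Unit => Ideal.Quotient.mk 𝔭 (y 0) := fun 𝔭 => by
    rw [Set.range_const, Set.range_const]
  obtain ⟨d, hd1, hd2⟩ := hC k A 1 (fun _ => y 0) s (D * B) (by
    intro 𝔭 h𝔭
    rw [hms] at h𝔭
    refine ⟨hprime 𝔭 h𝔭, ?_, ?_⟩
    · have h1 := htr 𝔭 h𝔭
      exact algebraicIndependent_unique_type_iff.2 h1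
    · rw [hr]
      exact hintq 𝔭 h𝔭) (by
    intro Ω _ _ η
    refine encard_fib (fun χ : A →ₐ[k] Ω => fun l => χ (y l)) _
      {η' : Fin (m + 1) → Ω | η' 0 = η 0 ∧ ∀ l, MvPolynomial.aeval η' (g l) = 0} B D ?_
      (hF.card Ω (η 0)) ?_
    · rintro χ ⟨h1, 𝔭, h𝔭, h2⟩
      refine ⟨h1 0, fun l => ?_⟩
      have h3 : χ (G l) = 0 := h2 _ (hJle 𝔭 ((hms 𝔭).1 h𝔭) (Ideal.subset_span ⟨l, rfl⟩))
      rw [hG] at h3
      simp only at h3
      rw [MvPolynomial.comp_aeval_apply] at h3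
      exact h3
    · intro η' _
      have h1 := hV.deg Ω η'
      have h2 : {a : A →ₐ[k] Ω | (fun l => a (y l)) = η'} =
          {χ : A →ₐ[k] Ω | ∀ l, χ (lin (α l) x) = η' l} := by
        ext χ
        simp only [Set.mem_setOf_eq, funext_iff, hy]
      rw [h2]
      exact h1)
  -- the points
  set Sp : Ideal A → Finset (Fin ν → k) := fun 𝔭 =>
    S.filter (fun p => OnVar k (fun j => Ideal.Quotient.mk 𝔭 (x j)) p) with hSp
  have hcover : S ⊆ s.biUnion Sp := by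
    intro p hp
    obtain ⟨⟨χ, hχ⟩, hp2⟩ := hS p hp
    have hy' : ∀ l, χ (y l) = lin (α l) p := by
      intro l
      rw [hy]
      simp only
      rw [map_lin]
      congr 1
      funext j
      exact hχ j
    have hJk : J ≤ RingHom.ker χ := by
      rw [hJ, Ideal.span_le]
      rintro _ ⟨l, rfl⟩
      have h1 : χ (G l) = MvPolynomial.eval (fun l' => lin (α l') p) (g l) := by
        rw [hG]
        simp only
        rw [MvPolynomial.comp_aeval_apply]
        have : (fun i => χ (y i)) = fun l' => lin (α l') p := funext hy'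
        rw [this, MvPolynomial.aeval_eq_eval]
      show χ (G l) = 0
      rw [h1]
      exact hp2 l
    haveI : (RingHom.ker χ).IsPrime := RingHom.ker_isPrime χ.toRingHom
    obtain ⟨𝔭, h𝔭, hle⟩ := Ideal.exists_minimalPrimes_le hJk
    rw [Finset.mem_biUnion]
    refine ⟨𝔭, (hms 𝔭).2 h𝔭, ?_⟩
    rw [hSp]
    simp only [Finset.mem_filter]
    refine ⟨hp, Ideal.Quotient.liftₐ 𝔭 χ (fun a ha => hle ha), fun j => ?_⟩
    rw [← hχ j]
    rfl
  obtain ⟨𝔭, h𝔭, hlt⟩ : ∃ 𝔭 ∈ s, C * d 𝔭 < (Sp 𝔭).card := by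
    by_contra hcon
    push Not at hcon
    have h1 : S.card ≤ ∑ 𝔭 ∈ s, (Sp 𝔭).card := (Finset.card_le_card hcover).trans
      Finset.card_biUnion_le
    have h2 : ∑ 𝔭 ∈ s, (Sp 𝔭).card ≤ ∑ 𝔭 ∈ s, C * d 𝔭 := Finset.sum_le_sum hcon
    rw [← Finset.mul_sum] at h2
    have h3 : C * ∑ 𝔭 ∈ s, d 𝔭 ≤ C * (D * B) := Nat.mul_le_mul_left _ hd1
    omega
  have h𝔭' := (hms 𝔭).1 h𝔭
  have hlin : lin (α 0) (fun j => Ideal.Quotient.mk 𝔭 (x j)) = Ideal.Quotient.mk 𝔭 (y 0) := by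
    have h1 := map_lin (Ideal.Quotient.mkₐ k 𝔭) (α 0) x
    exact h1.symm
  refine ⟨A ⧸ 𝔭, inferInstance, inferInstance, fun j => Ideal.Quotient.mk 𝔭 (x j), α 0, d 𝔭, Sp 𝔭,
    ⟨?_, hgen 𝔭, ?_, ?_, ?_⟩, Finset.filter_subset _ _, ?_, hlt⟩
  · haveI := hprime 𝔭 h𝔭'
    infer_instance
  · rw [hlin]
    exact htr 𝔭 h𝔭'
  · intro j
    rw [hlin]
    exact hint0 𝔭 h𝔭' j
  · intro K _ _ _ _ _
    obtain ⟨h1, h2⟩ := (hd2 𝔭 h𝔭).2 K
    rw [Set.range_const] at h1 h2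
    rw [hlin]
    exact ⟨h1, h2.le⟩
  · intro p hp
    exact (Finset.mem_filter.1 hp).2

end PGL.H15
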