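import Pool.Agent.Helper11_PGL.StmtK

/-!
# Module HB of squad PGL
-/

set_option autoImplicit false

open scoped TensorProduct
open PGH

universe u

namespace PGL.H15

section Aux

variable {k E : Type*} [Field k] [IsAlgClosed k] [CharZero k] [Field E] [Algebra k E] [FF k E]

/-- the number of places in the support of an element -/
theorem card_support_le (w : E) (S : Finset (Place k E)) [DecidablePred fun v : Place k E => v.ord w ≠ 0] :
    (((S.filter fun v => v.ord w ≠ 0).card : ℕ) : ℤ) ≤ 2 * (ht k w : ℤ) := by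
  have h1 : (((S.filter fun v => v.ord w ≠ 0).card : ℕ) : ℤ) ≤
      ∑ v ∈ S, (max 0 (-v.ord w) + max 0 (-v.ord w⁻¹)) := by
    rw [Finset.card_filter]
    push_cast
    apply Finset.sum_le_sum
    intro v _
    rw [v.ord_inv]
    split_ifs with h
    · omega
    · omega
  rw [Finset.sum_add_distrib] at h1
  have h2 := sum_poles_le (L := k) w S
  have h3 := sum_poles_le (L := k) w⁻¹ S
  rw [ht_inv] at h3
  linarith

end Aux

theorem hb (hkineq : KIneqStmt.{u}) (hhbl : HblStmt.{u}) : HbStmt.{u} := by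
  intro k E R _ _ _ _ _ _ _ _ _ n N m f b I Q lam p y u β z D del cp sc hf hb hQi hQ hcard hind
    hm hnN hDk hDc hDge hcp hdel hcop hlin hpow i₁ j₁
  classical
  set C : ℤ := ∑ v ∈ sc, (cp v : ℤ) with hC
  have hC0 : 0 ≤ C := Finset.sum_nonneg fun v _ => by positivity
  set B : ℤ := (Multiset.card b : ℤ) with hB
  have hB0 : 0 ≤ B := by positivity
  have hT0 : (0 : ℤ) ≤ ∑ i, 2 * (ht k (β i) : ℤ) := Finset.sum_nonneg fun i _ => by positivity
  have hN0 : (0 : ℤ) ≤ N := by positivity
  have hR0 : 0 ≤ 2 * B * C + N * ∑ i, 2 * (ht k (β i) : ℤ) := by positivity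
  have hzero : ht k (0 : E) = 0 := by
    have := ht_const (L := k) (E := E) 0
    rwa [map_zero] at this
  by_cases hy1 : y i₁ = 0
  · rw [hy1, zero_div, hzero]
    simpa using hR0
  by_cases hy2 : y j₁ = 0
  · rw [hy2, div_zero, hzero]
    simpa using hR0
  have hy : y ≠ 0 := fun h => hy1 (by rw [h]; rfl)
  -- the family indexed by `I`
  let φ : Fin I.card → Fin N := fun t => I.orderEmbOfFin rfl t
  have hφI : ∀ t, φ t ∈ I := fun t => Finset.orderEmbOfFin_mem I rfl t
  have hφinj : Function.Injective φ := (I.orderEmbOfFin rfl).injective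
  have himg : Finset.univ.image φ = I := by
    apply Finset.eq_of_subset_of_card_le
    · intro x hx
      obtain ⟨t, -, rfl⟩ := Finset.mem_image.1 hx
      exact hφI t
    · rw [Finset.card_image_of_injective _ hφinj, Finset.card_univ, Fintype.card_fin]
  have hQinj : Function.Injective (fun t => Q (φ t)) := by
    intro s t hst
    exact hφinj (hQi (hφI s) (hφI t) hst)
  obtain ⟨α, s₀, hα1, hα2, hα3, hα4⟩ := hkineq k E R n I.card f b (fun t => Q (φ t))
    (fun t => lam (φ t)) (fun t => p (φ t)) y D del cp sc hf hb hQinj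
    (fun t j => hQ (φ t) (hφI t) j) hDk hDc hDge hcp hdel hcop (fun t => hlin (φ t)) hy
  -- the big finite set of places
  have hfin : ∀ w : E, ({P : Place k E | P.ord w ≠ 0}).Finite := fun w => finite_support w
  let S : Finset (Place k E) := s₀ ∪ sc ∪
    ((Finset.univ.biUnion fun i => (hfin (lin (p i) y)).toFinset) ∪
      (Finset.univ.biUnion fun j => (hfin (y j)).toFinset))
  have hSs : s₀ ⊆ S := fun v hv => by simp [S, hv]
  have hSc : sc ⊆ S := fun v hv => by simp [S, hv]
  have hSlin : ∀ v ∉ S, ∀ i, v.ord (lin (p i) y) = 0 := by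
    intro v hv i
    by_contra hcon
    apply hv
    simp only [S, Finset.mem_union, Finset.mem_biUnion, Finset.mem_univ, true_and,
      Set.Finite.mem_toFinset]
    exact Or.inr (Or.inl ⟨i, hcon⟩)
  have hSy : ∀ v ∉ S, ∀ j, v.ord (y j) = 0 := by
    intro v hv j
    by_contra hcon
    apply hv
    simp only [S, Finset.mem_union, Finset.mem_biUnion, Finset.mem_univ, true_and,
      Set.Finite.mem_toFinset]
    exact Or.inr (Or.inr ⟨j, hcon⟩)
  have hmain := hα4 S hSs hSc
  set h : ℤ := -∑ v ∈ S, α v with hh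
  -- the height is at most `h`
  have hht : (ht k (y i₁ / y j₁) : ℤ) ≤ h := by
    rw [← sum_poles_eq (L := k) (y i₁ / y j₁) S (fun v hv => by
      rw [v.ord_div hy1 hy2, hSy v hv, hSy v hv, sub_zero])]
    have h1 : ∀ v ∈ S, max 0 (-v.ord (y i₁ / y j₁)) ≤ v.ord (y j₁) - α v := by
      intro v _
      rw [v.ord_div hy1 hy2]
      have h2 := (v.ge_iff hy1).1 (hα1 v i₁)
      have h3 := (v.ge_iff hy2).1 (hα1 v j₁)
      omega
    refine (Finset.sum_le_sum h1).trans ?_
    rw [Finset.sum_sub_distrib, sum_ord_eq_zero (L := k) (y j₁) S (fun v hv => hSy v hv j₁)]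
    rw [hh]; linarith
  refine hht.trans ?_
  -- the local inequalities
  have hloc : ∀ (v : Place k E) (i : Fin N), α v ≤ v.ord (lin (p i) y) ∧
      ((∀ j, v.ord (β j) = 0) →
        v.ord (lin (p i) y) - α v ≤ 2 * max 0 (v.ord (lin (p i) y) - α v - 1)) ∧
      v.ord (lin (p i) y) - α v ≤ 2 * max 0 (v.ord (lin (p i) y) - α v - 1) + 1 :=
    fun v i => hhbl k E n N m v p y (α v) u β z hind hnN hm (hα1 v) (hα2 v) hlin hpow i
  have hsum : ∀ i : Fin N, ∑ v ∈ S, (v.ord (lin (p i) y) - α v) = h := by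
    intro i
    rw [Finset.sum_sub_distrib,
      sum_ord_eq_zero (L := k) (lin (p i) y) S (fun v hv => hSlin v hv i), hh]
    ring
  have hh0 : 0 ≤ h := by
    rw [← hsum ⟨0, by omega⟩]
    exact Finset.sum_nonneg fun v _ => by linarith [(hloc v ⟨0, by omega⟩).1]
  -- bad places
  let bad : Finset (Place k E) := S.filter fun v => ∃ j, v.ord (β j) ≠ 0
  have hbad : ((bad.card : ℕ) : ℤ) ≤ ∑ i, 2 * (ht k (β i) : ℤ) := by
    have h1 : bad ⊆ Finset.univ.biUnion fun j => S.filter fun v => v.ord (β j) ≠ 0 := by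
      intro v hv
      obtain ⟨hvS, j, hj⟩ := Finset.mem_filter.1 hv
      exact Finset.mem_biUnion.2 ⟨j, Finset.mem_univ _, Finset.mem_filter.2 ⟨hvS, hj⟩⟩
    have h2 := (Finset.card_le_card h1).trans Finset.card_biUnion_le
    have h3 : ((bad.card : ℕ) : ℤ) ≤ ∑ j, (((S.filter fun v => v.ord (β j) ≠ 0).card : ℕ) : ℤ) := by
      exact_mod_cast h2
    refine h3.trans (Finset.sum_le_sum fun j _ => card_support_le (β j) S)
  have hterm : ∀ (v : Place k E), v ∈ S → ∀ i : Fin N,
      v.ord (lin (p i) y) - α v ≤ 2 * max 0 (v.ord (lin (p i) y) - α v - 1) +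
        (if v ∈ bad then 1 else 0) := by
    intro v hv i
    split_ifs with hvb
    · exact (hloc v i).2.2
    · rw [add_zero]
      apply (hloc v i).2.1
      intro j
      by_contra hcon
      exact hvb (Finset.mem_filter.2 ⟨hv, j, hcon⟩)
  have hcount : ∑ v ∈ S, (if v ∈ bad then (1 : ℤ) else 0) = bad.card := by
    rw [← Finset.sum_filter]
    have : S.filter (fun v => v ∈ bad) = bad := by
      ext v
      simp only [Finset.mem_filter]
      exact ⟨fun hv => hv.2, fun hv => ⟨(Finset.mem_filter.1 hv).1, hv⟩⟩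
    rw [this]; simp
  have hone : ∀ i : Fin N, h ≤ 2 * ∑ v ∈ S, max 0 (v.ord (lin (p i) y) - α v - 1) + bad.card := by
    intro i
    rw [← hsum i, ← hcount, Finset.mul_sum, ← Finset.sum_add_distrib]
    exact Finset.sum_le_sum fun v hv => hterm v hv i
  have hall : ∑ _t : Fin I.card, h ≤
      ∑ t : Fin I.card, (2 * ∑ v ∈ S, max 0 (v.ord (lin (p (φ t)) y) - α v - 1) + bad.card) :=
    Finset.sum_le_sum fun t _ => hone (φ t)
  rw [Finset.sum_const, Finset.card_univ, Fintype.card_fin, Finset.sum_add_distrib,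
    ← Finset.mul_sum, Finset.sum_comm, Finset.sum_const, Finset.card_univ, Fintype.card_fin] at hall
  simp only [nsmul_eq_mul] at hall
  have hIN : (I.card : ℤ) ≤ N := by
    have := Finset.card_le_univ I
    rw [Fintype.card_fin] at this
    exact_mod_cast this
  have hI4 : 4 * B + 1 ≤ (I.card : ℤ) := by
    rw [hB]; exact_mod_cast hcard
  have hbad0 : (0 : ℤ) ≤ bad.card := by positivity
  have e1 : (I.card : ℤ) * h ≤ 4 * B * h + 2 * B * C + I.card * bad.card := by
    calc (I.card : ℤ) * h ≤ _ := hall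
      _ ≤ 2 * (2 * B * h + B * C) + I.card * bad.card := by linarith [hmain]
      _ = _ := by ring
  have e2 : h ≤ (I.card - 4 * B) * h := by nlinarith
  have e3 : (I.card : ℤ) * bad.card ≤ N * ∑ i, 2 * (ht k (β i) : ℤ) := by
    calc (I.card : ℤ) * bad.card ≤ N * bad.card := by nlinarith
      _ ≤ _ := by nlinarith
  nlinarith

end PGL.H15
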