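import Pool.Agent.Helper11_PGL.StmtT

/-!
# PGL, module POLYZ
-/

open MvPolynomial

universe u

namespace PGL.H15

/-- exponents in `Y_1, ..., Y_m` of degree `d` -/
abbrev MM (m d : ℕ) : Type := {b : Fin (m + 1) →₀ ℕ // b 0 = 0 ∧ (b.sum fun _ e => e) = d}

theorem sumE {m : ℕ} (b : Fin (m + 1) →₀ ℕ) : (b.sum fun _ e => e) = ∑ i, b i :=
  Finsupp.sum_fintype _ _ (fun _ => rfl)

theorem sumE_add {m : ℕ} (a b : Fin (m + 1) →₀ ℕ) :
    ((a + b).sum fun _ e => e) = (a.sum fun _ e => e) + (b.sum fun _ e => e) := by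
  rw [sumE, sumE, sumE, ← Finset.sum_add_distrib]
  rfl

theorem sumE_single {m : ℕ} (l : Fin (m + 1)) (s : ℕ) :
    ((Finsupp.single l s).sum fun _ e => e) = s := by
  rw [Finsupp.sum_single_index rfl]

instance finite_MM (m d : ℕ) : Finite (MM m d) := by
  let f : MM m d → (Fin (m + 1) → Fin (d + 1)) := fun b i => ⟨b.1 i, by
    have h := b.2.2
    rw [sumE] at h
    have h2 : b.1 i ≤ ∑ i, b.1 i := Finset.single_le_sum (f := fun i => b.1 i)
      (fun _ _ => Nat.zero_le _) (Finset.mem_univ i)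
    omega⟩
  refine Finite.of_injective f ?_
  intro b b' h
  apply Subtype.ext
  ext i
  have := congrFun h i
  simpa [f] using this

noncomputable instance fintype_MM (m d : ℕ) : Fintype (MM m d) := Fintype.ofFinite _

/-- pigeonhole -/
theorem exists_l {m s : ℕ} (hs : 1 ≤ s) (b : MM m (m * (s - 1) + 1)) :
    ∃ l : Fin m, s ≤ b.1 l.succ := by
  by_contra hcon
  push Not at hcon
  have h := b.2.2
  rw [sumE, Fin.sum_univ_succ, b.2.1, zero_add] at h
  have h1 : ∑ i : Fin m, b.1 i.succ ≤ ∑ _i : Fin m, (s - 1) :=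
    Finset.sum_le_sum (fun i _ => by have := hcon i; omega)
  rw [Finset.sum_const, Finset.card_univ, Fintype.card_fin, smul_eq_mul] at h1
  omega

noncomputable def lb {m s : ℕ} (hs : 1 ≤ s) (b : MM m (m * (s - 1) + 1)) : Fin m :=
  (exists_l hs b).choose

theorem lb_spec {m s : ℕ} (hs : 1 ≤ s) (b : MM m (m * (s - 1) + 1)) :
    s ≤ b.1 (lb hs b).succ := (exists_l hs b).choose_spec

/-- `Y^b = Y^(b - s l) * Y_l^s` -/
theorem sub_add {m s : ℕ} (hs : 1 ≤ s) (b : MM m (m * (s - 1) + 1)) :
    (b.1 - Finsupp.single (lb hs b).succ s) + Finsupp.single (lb hs b).succ s = b.1 := by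
  apply tsub_add_cancel_of_le
  rw [Finsupp.single_le_iff]
  exact lb_spec hs b

theorem sub_sum {m s : ℕ} (hs : 1 ≤ s) (b : MM m (m * (s - 1) + 1)) :
    ((b.1 - Finsupp.single (lb hs b).succ s).sum fun _ e => e) + s = m * (s - 1) + 1 := by
  have h1 := sumE_add (b.1 - Finsupp.single (lb hs b).succ s) (Finsupp.single (lb hs b).succ s)
  rw [sub_add, sumE_single] at h1
  exact h1.symm.trans b.2.2

section

variable {S : Type*} [CommRing S] {m s : ℕ}

open Classical in
/-- the generic polynomials -/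
noncomputable def gg (Δ : S) (Nm : Fin m → JJ m s →₀ S) (l : Fin m) :
    MvPolynomial (Fin (m + 1)) S :=
  monomial (Finsupp.single l.succ s) Δ - (Nm l).sum (fun a t => monomial a.1 t)

theorem gg_deg (Δ : S) (Nm : Fin m → JJ m s →₀ S) (l : Fin m) :
    (gg Δ Nm l).totalDegree ≤ s := by
  refine (totalDegree_sub _ _).trans (max_le ?_ ?_)
  · refine (totalDegree_monomial_le _ _).trans ?_
    exact (sumE_single l.succ s).le
  · refine totalDegree_finsetSum_le fun a _ => ?_
    exact (totalDegree_monomial_le _ _).trans a.2.1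

theorem map_gg {T : Type*} [CommRing T] (φ : S →+* T) (Δ : S) (Nm : Fin m → JJ m s →₀ S)
    (l : Fin m) : MvPolynomial.map φ (gg Δ Nm l) =
      gg (φ Δ) (fun l => (Nm l).mapRange φ (map_zero φ)) l := by
  unfold gg
  rw [map_sub, map_monomial, map_finsuppSum, Finsupp.sum_mapRange_index (fun _ => monomial_zero)]
  simp only [map_monomial]

/-- the matrix of the coefficients of degree `d` -/
noncomputable def KK (hs : 1 ≤ s) (g : Fin m → MvPolynomial (Fin (m + 1)) S) :
    Matrix (MM m (m * (s - 1) + 1)) (MM m (m * (s - 1) + 1)) S := fun b b' =>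
  coeff b'.1 (monomial (b.1 - Finsupp.single (lb hs b).succ s) 1 * g (lb hs b))

theorem KK_map {T : Type*} [CommRing T] (φ : S →+* T) (hs : 1 ≤ s)
    (g : Fin m → MvPolynomial (Fin (m + 1)) S) :
    (KK hs g).map φ = KK hs (fun l => MvPolynomial.map φ (g l)) := by
  ext b b'
  simp only [Matrix.map_apply, KK]
  rw [← coeff_map, map_mul, map_monomial, map_one]

/-- the matrix is diagonal if the leading coefficients vanish -/
theorem KK_diag [DecidableEq (MM m (m * (s - 1) + 1))] (hs : 1 ≤ s) (Δ : S) (Nm : Fin m → JJ m s →₀ S)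
    (h : ∀ l a, (a.1.sum fun _ e => e) = s → a.1 0 = 0 → Nm l a = 0) :
    KK hs (gg Δ Nm) = Matrix.scalar _ Δ := by
  ext b b'
  rw [Matrix.scalar_apply, Matrix.diagonal_apply]
  simp only [KK, gg]
  rw [mul_sub, coeff_sub, monomial_mul, sub_add, one_mul, coeff_monomial, Finsupp.mul_sum,
    Finsupp.sum, coeff_sum]
  have h0 : ∀ a ∈ (Nm (lb hs b)).support, coeff b'.1
      (monomial (b.1 - Finsupp.single (lb hs b).succ s) 1 * monomial a.1 (Nm (lb hs b) a)) = 0 := by
    intro a _
    rw [monomial_mul, coeff_monomial]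
    split_ifs with h1
    · have h3 : ((b.1 - Finsupp.single (lb hs b).succ s).sum fun _ e => e) + s =
          m * (s - 1) + 1 := sub_sum hs b
      have e1 : (a.1.sum fun _ e => e) = s := by
        have h2 : ((b.1 - Finsupp.single (lb hs b).succ s).sum fun _ e => e) +
            (a.1.sum fun _ e => e) = m * (s - 1) + 1 := by
          rw [← sumE_add, h1, b'.2.2]
        omega
      have e2 : a.1 0 = 0 := by
        have h2 : (b.1 - Finsupp.single (lb hs b).succ s) 0 + a.1 0 = 0 := by
          rw [← Finsupp.add_apply, h1, b'.2.1]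
        omega
      rw [h _ a e1 e2, mul_zero]
    · rfl
  rw [Finset.sum_eq_zero h0, sub_zero]
  by_cases hb : b = b'
  · rw [if_pos hb, if_pos (congrArg Subtype.val hb)]
  · rw [if_neg hb, if_neg (fun h => hb (Subtype.ext h))]

end

/-- the conclusion over a field -/
theorem mac_of_det {k : Type u} [Field k] {m s : ℕ} (hs : 1 ≤ s)
    (g : Fin m → MvPolynomial (Fin (m + 1)) k) (hg : ∀ l, (g l).totalDegree ≤ s)
    [DecidableEq (MM m (m * (s - 1) + 1))]
    (hdet : (KK hs g).det ≠ 0) : MacHyp k m (m * (s - 1)) g := by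
  intro a ha0 had
  set A : MM m (m * (s - 1) + 1) := ⟨a, ha0, had⟩ with hA
  have hinv : (KK hs g)⁻¹ * KK hs g = 1 :=
    Matrix.nonsing_inv_mul _ (isUnit_iff_ne_zero.2 hdet)
  set P : MM m (m * (s - 1) + 1) → MvPolynomial (Fin (m + 1)) k := fun b =>
    monomial (b.1 - Finsupp.single (lb hs b).succ s) 1 * g (lb hs b) with hP
  set Q : MvPolynomial (Fin (m + 1)) k := ∑ b, C ((KK hs g)⁻¹ A b) * P b with hQ
  have hPd : ∀ b, (P b).totalDegree ≤ m * (s - 1) + 1 := by
    intro b
    refine (totalDegree_mul _ _).trans ?_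
    have h1 : (monomial (b.1 - Finsupp.single (lb hs b).succ s) (1 : k)).totalDegree ≤
        ((b.1 - Finsupp.single (lb hs b).succ s).sum fun _ e => e) :=
      totalDegree_monomial_le _ _
    have h3 : ((b.1 - Finsupp.single (lb hs b).succ s).sum fun _ e => e) + s =
          m * (s - 1) + 1 := sub_sum hs b
    have h5 := hg (lb hs b)
    omega
  have hQd : Q.totalDegree ≤ m * (s - 1) + 1 := by
    refine totalDegree_finsetSum_le fun b _ => ?_
    refine (totalDegree_mul _ _).trans ?_
    rw [totalDegree_C, zero_add]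
    exact hPd b
  have hrd : (monomial a 1 - Q).totalDegree ≤ m * (s - 1) + 1 := by
    refine (totalDegree_sub _ _).trans (max_le ?_ hQd)
    exact (totalDegree_monomial_le _ _).trans had.le
  refine ⟨monomial a 1 - Q, ?_, hrd, ?_⟩
  · rw [sub_sub_cancel]
    refine Ideal.sum_mem _ fun b _ => Ideal.mul_mem_left _ _ (Ideal.mul_mem_left _ _
      (Ideal.subset_span ⟨_, rfl⟩))
  · intro b hb
    have h1 : (b.sum fun _ e => e) ≤ m * (s - 1) + 1 := (le_totalDegree hb).trans hrd
    rw [sumE, Fin.sum_univ_succ] at h1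
    by_contra hcon
    push Not at hcon
    have hb0 : b 0 = 0 := by omega
    have hbd : (b.sum fun _ e => e) = m * (s - 1) + 1 := by
      rw [sumE, Fin.sum_univ_succ]; omega
    set B : MM m (m * (s - 1) + 1) := ⟨b, hb0, hbd⟩ with hB
    rw [mem_support_iff] at hb
    apply hb
    rw [coeff_sub, hQ, coeff_sum]
    have h2 : ∀ b' : MM m (m * (s - 1) + 1), coeff b (C ((KK hs g)⁻¹ A b') * P b') =
        (KK hs g)⁻¹ A b' * KK hs g b' B := by
      intro b'
      rw [coeff_C_mul]
      rfl
    rw [Finset.sum_congr rfl (fun b' _ => h2 b'), ← Matrix.mul_apply, hinv]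
    by_cases hab : a = b
    · have hAB : A = B := Subtype.ext hab
      rw [← hab, coeff_monomial, if_pos rfl, ← hAB, Matrix.one_apply_eq, sub_self]
    · have hAB : A ≠ B := fun h => hab (congrArg Subtype.val h)
      rw [coeff_monomial, if_neg hab, Matrix.one_apply_ne hAB, sub_self]

/-- POLYZ -/
theorem polyZ (hC : CramerStmt) : PolyZStmt.{u} := by
  classical
  intro m s hs
  obtain ⟨Δ, Nm, hid, q0, hΔ, hN⟩ := hC m s hs
  refine ⟨(KK hs (gg Δ Nm)).det, ?_, ?_⟩
  · intro h0
    have h1 := congrArg (MvPolynomial.eval (fun ij : JJ m s × Fin (m + 1) => q0 ij.1 ij.2)) h0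
    rw [RingHom.map_det, RingHom.mapMatrix_apply, KK_map, map_zero] at h1
    have h2 : (fun l => MvPolynomial.map (MvPolynomial.eval
        (fun ij : JJ m s × Fin (m + 1) => q0 ij.1 ij.2)) (gg Δ Nm l)) =
        gg (MvPolynomial.eval (fun ij : JJ m s × Fin (m + 1) => q0 ij.1 ij.2) Δ)
          (fun l => (Nm l).mapRange _ (map_zero (MvPolynomial.eval
            (fun ij : JJ m s × Fin (m + 1) => q0 ij.1 ij.2)))) := by
      funext l
      exact map_gg _ _ _ _
    rw [h2, KK_diag] at h1
    · rw [Matrix.scalar_apply, Matrix.det_diagonal, Finset.prod_const] at h1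
      exact pow_ne_zero _ hΔ h1
    · intro l a h3 h4
      rw [Finsupp.mapRange_apply]
      exact hN l a h3 h4
  · intro k _ q hq
    set φ : MvPolynomial (JJ m s × Fin (m + 1)) ℤ →+* k :=
      (MvPolynomial.aeval (fun ij : JJ m s × Fin (m + 1) => q ij.1 ij.2)).toRingHom with hφ
    refine ⟨fun l => MvPolynomial.map φ (gg Δ Nm l), ?_, ?_⟩
    · intro i l
      have h1 := congrArg φ (hid i l)
      have hX : ∀ i j, φ (genPt m s (i, j)) = q i j := fun i j => by
        simp [hφ, genPt]
      rw [map_mul, map_pow, hX, map_finsuppSum] at h1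
      rw [eval_map, gg, eval₂_sub, eval₂_monomial,
        Finsupp.prod_single_index (h := fun n e => q i n ^ e) (pow_zero _), h1,
        Finsupp.sum, Finsupp.sum, eval₂_sum, sub_eq_zero]
      refine Finset.sum_congr rfl fun a _ => ?_
      rw [eval₂_monomial, map_mul, map_finsuppProd]
      congr 1
      refine Finsupp.prod_congr fun j _ => ?_
      rw [map_pow, hX]
    · refine mac_of_det hs _ (fun l => ?_) ?_
      · rw [map_gg]
        exact gg_deg _ _ _
      · rw [← KK_map, ← RingHom.mapMatrix_apply, ← RingHom.map_det]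
        exact hq

end PGL.H15
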